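import Mathlib

/-!
# Theorem H+ (MP_8923e7_nt): Bohr sets of bounded rank, definitions and interface

`bohr L D θ` is the Bohr set `{1 ≤ h ≤ L : ‖θ_i h‖ ≤ 1/4 for all i < D}`.

`Cor` is the combinatorial input (finite Følner / Bogolyubov theorem with multiplicities): for every dense `S ⊆ [1, L]` there is
a Bohr set `B` of bounded rank and density bounded below such that every set `CC` of at least `ε |B|^k` of the `k`-tuples of
elements of `B` has at least `γ L^(k+1)` translates `(t, t + c_1, .., t + c_k)`, `c ∈ CC`, inside `S`.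
-/

namespace Pool.Agent.H99.HP

open Finset

/-- the Bohr set `{1 ≤ h ≤ L : ‖θ_i h‖ ≤ 1/4 for all i < D}` -/
noncomputable def bohr (L D : ℕ) (θ : Fin D → ℝ) : Finset ℕ :=
  (Icc 1 L).filter fun h => ∀ i, |θ i * h - round (θ i * h)| ≤ 1 / 4

open Classical in
/-- the pairs `(t, c)`, `t ∈ S`, `c ∈ CC`, such that all the `t + c_i` are in `S` -/
noncomputable def cnf {k : ℕ} (S : Finset ℕ) (CC : Finset (Fin k → ℕ)) : Finset (ℕ × (Fin k → ℕ)) :=
  (S ×ˢ CC).filter fun z => ∀ i, z.1 + z.2 i ∈ S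

/-- the combinatorial input -/
def Cor : Prop :=
  ∀ (k : ℕ) (d ε : ℝ), 0 < d → d ≤ 1 → 0 < ε → ε ≤ 1 → ∃ (D : ℕ) (κ γ : ℝ) (L₀ : ℕ), 0 < κ ∧ 0 < γ ∧
    ∀ L : ℕ, L₀ ≤ L → ∀ S : Finset ℕ, S ⊆ Icc 1 L → d * L ≤ S.card → ∃ θ : Fin D → ℝ,
      κ * L ≤ (bohr L D θ).card ∧
      ∀ CC : Finset (Fin k → ℕ), CC ⊆ Fintype.piFinset (fun _ : Fin k => bohr L D θ) →
        ε * ((bohr L D θ).card : ℝ) ^ k ≤ CC.card → γ * (L : ℝ) ^ (k + 1) ≤ (cnf S CC).card

end Pool.Agent.H99.HP
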