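import Pool.Agent.H99.HP.Dil
import Pool.Agent.H99.Fin.DenseCliques

/-!
Assembly of Theorem H+ (MP_8923e7_nt): from dense cliques (`Fin/DenseCliques`) and `Cor`.
-/

namespace Pool.Agent.H99.HP

open Finset Filter

open Pool.Agent.H99.Fin.DenseCliques (countIn countMono AlmostAll)

open Classical in
/-- the number of the `N`, `1 ≤ N ≤ X`, for which `N` and all the `N + a_i` are in `A` -/
noncomputable def count {k : ℕ} (X : ℕ) (A : Set ℕ) (a : Fin k → ℕ) : ℕ :=
  ((Icc 1 X).filter fun N => N ∈ A ∧ ∀ i, N + a i ∈ A).card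

theorem countIn_le {k : ℕ} (X Q L : ℕ) (A : Set ℕ) (t : ℕ) (c : Fin k → ℕ) (ht : Q * t ≤ L) :
    countIn X Q A (Fin.cons t fun i => t + c i) ≤ count X A (fun i => Q * c i) + L := by
  classical
  unfold countIn count
  have h1 : ((Icc 1 X).filter fun N => ∀ i, N + Q * (Fin.cons t fun i => t + c i : Fin (k + 1) → ℕ) i ∈ A).card ≤
      (((Icc 1 X).filter fun N => N ∈ A ∧ ∀ i, N + Q * c i ∈ A) ∪ Icc (X + 1) (X + L)).card := by
    apply card_le_card_of_injOn (fun N => N + Q * t)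
    · intro N hN
      rw [mem_coe, mem_filter, mem_Icc] at hN
      obtain ⟨⟨h1, h2⟩, h3⟩ := hN
      have h4 := h3 0
      rw [Fin.cons_zero] at h4
      beta_reduce
      rw [mem_coe, mem_union, mem_filter, mem_Icc, mem_Icc]
      by_cases h5 : N + Q * t ≤ X
      · left
        refine ⟨⟨by omega, h5⟩, h4, fun i => ?_⟩
        have h6 := h3 i.succ
        rw [Fin.cons_succ, mul_add, ← add_assoc] at h6
        exact h6
      · right
        constructor <;> omega
    · intro a _ b _ hab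
      exact Nat.add_right_cancel hab
  refine h1.trans ((card_union_le _ _).trans ?_)
  have : (Icc (X + 1) (X + L)).card = L := by
    rw [Nat.card_Icc]
    omega
  rw [this]

theorem countMono_le' {k r : ℕ} (X Q : ℕ) (χ : ℕ → Fin r) (y : Fin (k + 1) → ℕ) (A : Fin r → Set ℕ)
    (hA : ∀ i p, p.Prime → χ p = i → p ∈ A i) : countMono X Q χ y ≤ ∑ i : Fin r, countIn X Q (A i) y := by
  classical
  unfold countMono countIn
  refine le_trans (card_le_card ?_) card_biUnion_le
  intro N hN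
  rw [mem_filter] at hN
  rw [mem_biUnion]
  refine ⟨χ (N + Q * y 0), mem_univ _, ?_⟩
  rw [mem_filter]
  exact ⟨hN.1, fun i => hA _ _ (hN.2 i).1 ((hN.2 i).2 0)⟩

theorem countMono_le {k r : ℕ} (X Q : ℕ) (χ : ℕ → Fin r) (y : Fin (k + 1) → ℕ) :
    countMono X Q χ y ≤ ∑ i : Fin r, countIn X Q {p : ℕ | p.Prime ∧ χ p = i} y :=
  countMono_le' X Q χ y (fun i => {p : ℕ | p.Prime ∧ χ p = i}) fun _ _ h1 h2 => ⟨h1, h2⟩

theorem eventually_small (n : ℕ) (c : ℝ) (hc : 0 < c) :
    ∃ X₁ : ℕ, ∀ X : ℕ, X₁ ≤ X → 1 ≤ Real.log X ∧ (X : ℝ) ^ (1 / 2 : ℝ) ≤ c * (X / Real.log X ^ n) := by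
  have h1 : (fun x : ℝ => Real.log x ^ (n : ℝ)) =o[atTop] fun x : ℝ => x ^ (1 / 2 : ℝ) :=
    isLittleO_log_rpow_rpow_atTop (n : ℝ) (by norm_num)
  have h2 := (h1.bound hc).and (eventually_ge_atTop (Real.exp 1))
  obtain ⟨x1, hx1⟩ := eventually_atTop.1 h2
  obtain ⟨X1, hX1⟩ := exists_nat_ge x1
  refine ⟨X1, fun X hX => ?_⟩
  obtain ⟨h3, h4⟩ := hx1 X (hX1.trans (by exact_mod_cast hX))
  have h5 : 1 ≤ Real.log X := by
    rw [Real.le_log_iff_exp_le (lt_of_lt_of_le (Real.exp_pos 1) h4)]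
    exact h4
  have hX0 : (0 : ℝ) < X := lt_of_lt_of_le (Real.exp_pos 1) h4
  refine ⟨h5, ?_⟩
  rw [Real.rpow_natCast, Real.norm_of_nonneg (by positivity), Real.norm_of_nonneg (by positivity)] at h3
  have h6 : (0 : ℝ) < Real.log X ^ n := by positivity
  rw [← mul_div_assoc, le_div_iff₀ h6]
  calc (X : ℝ) ^ (1 / 2 : ℝ) * Real.log X ^ n ≤ (X : ℝ) ^ (1 / 2 : ℝ) * (c * (X : ℝ) ^ (1 / 2 : ℝ)) :=
        mul_le_mul_of_nonneg_left h3 (by positivity)
    _ = c * ((X : ℝ) ^ (1 / 2 : ℝ) * (X : ℝ) ^ (1 / 2 : ℝ)) := by ring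
    _ = c * X := by
        rw [← Real.rpow_add hX0]
        norm_num

open Classical in
/-- **Theorem H+.** -/
theorem main (hC : Cor) (k r : ℕ) (α ε : ℝ) (hr : 1 ≤ r) (hα : 0 < α) (hα1 : α ≤ 1) (hε : 0 < ε)
    (hε1 : ε ≤ 1) :
    ∃ (D K : ℕ) (κ c C δ : ℝ) (L₀ X₀ : ℕ), 0 < κ ∧ 0 < c ∧ 0 < C ∧ 0 < δ ∧
      ∀ X L : ℕ, X₀ ≤ X → L₀ ≤ L → (L : ℝ) ≤ (X : ℝ) ^ δ →
        (∀ χ : ℕ → Fin r, ∃ θ : Fin D → ℝ, κ * L ≤ (bohr L D θ).card ∧
          Most (k := k) ε (bohr L D θ) fun a => ∃ i : Fin r,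
            c * (min 1 ((L : ℝ) / Real.log X)) ^ K * (X / Real.log X ^ (k + 1)) ≤
              count X {p : ℕ | p.Prime ∧ χ p = i} a) ∧
        (C * Real.log X ≤ L → ∀ A : Finset ℕ, (∀ p ∈ A, p.Prime ∧ p ≤ X) → α * X / Real.log X ≤ A.card →
          ∃ θ : Fin D → ℝ, κ * L ≤ (bohr L D θ).card ∧
          Most (k := k) ε (bohr L D θ) fun a => c * (X / Real.log X ^ (k + 1)) ≤ count X A a) := by
  have hr0 : (0 : ℝ) < r := by exact_mod_cast hr
  have hr1 : (1 : ℝ) ≤ r := by exact_mod_cast hr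
  obtain ⟨d, hd⟩ : ∃ d : ℝ, d = min (13 / (100 * (r : ℝ))) (13 * α / 100) := ⟨_, rfl⟩
  have hd0 : 0 < d := by
    rw [hd]
    positivity
  have hd1 : d ≤ 1 := by
    rw [hd]
    refine (min_le_right _ _).trans ?_
    linarith
  obtain ⟨D, κ, γ, L1, hκ, hγ, hcor⟩ := hC k d ε hd0 hd1 hε hε1
  obtain ⟨e, he⟩ : ∃ e : ℝ, e = min (min (13 / (100 * (r : ℝ))) (13 * α / 100)) (γ / 2) := ⟨_, rfl⟩
  have he0 : 0 < e := by
    rw [he]
    positivity
  have he1 : e ≤ 13 / (100 * r) := by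
    rw [he]
    exact (min_le_left _ _).trans (min_le_left _ _)
  have he2 : e ≤ 13 * α / 100 := by
    rw [he]
    exact (min_le_left _ _).trans (min_le_right _ _)
  have he3 : e < γ := by
    have : e ≤ γ / 2 := by
      rw [he]
      exact min_le_right _ _
    linarith
  have he4 : e ≤ 1 := by linarith
  obtain ⟨K, q, hq, hcl⟩ := Pool.Agent.H99.Fin.DenseCliques.result (k + 1) r α e (by omega) hr hα hα1 he0
  obtain ⟨c, C, δ, L2, X2, hc, hCC, hδ, hcl⟩ := hcl q hq dvd_rfl
  have hq0 : (0 : ℝ) < q := by exact_mod_cast hq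
  have hq1 : (1 : ℝ) ≤ q := by exact_mod_cast hq
  obtain ⟨c', hc'⟩ : ∃ c' : ℝ, c' = c / (2 * r * (2 * q) ^ K) := ⟨_, rfl⟩
  have hc'0 : 0 < c' := by
    rw [hc']
    positivity
  obtain ⟨X3, hX3⟩ := eventually_small (K + k + 1) (c / (2 * r)) (by positivity)
  refine ⟨D + q, K, κ / (2 * q), c', 2 * q * C, min δ (1 / 2), q * (L1 + L2 + 1), max X2 X3, by positivity,
    hc'0, by positivity, by positivity, fun X L hX hL hLX => ?_⟩
  have a1 : X2 ≤ X := (le_max_left _ _).trans hX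
  have a2 : X3 ≤ X := (le_max_right _ _).trans hX
  obtain ⟨hlog, hbig⟩ := hX3 X a2
  have hlog0 : 0 < Real.log X := by linarith
  have hX1 : (1 : ℝ) ≤ X := by
    by_contra h
    push Not at h
    have := Real.log_nonpos (Nat.cast_nonneg X) h.le
    linarith
  have hL' : L1 + L2 + 1 ≤ L / q := by
    rw [Nat.le_div_iff_mul_le hq, mul_comm]
    exact hL
  have hLq : q * (L / q) ≤ L := Nat.mul_div_le L q
  have hLq2 : (L : ℝ) ≤ 2 * q * ((L / q : ℕ) : ℝ) := by
    have h4 : L ≤ 2 * q * (L / q) := by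
      have h5 := Nat.div_add_mod L q
      have h6 := Nat.mod_lt L hq
      have h7 : q * 1 ≤ q * (L / q) := Nat.mul_le_mul_left _ (by omega)
      nlinarith
    exact_mod_cast h4
  have hL'0 : (1 : ℝ) ≤ ((L / q : ℕ) : ℝ) := by
    have : 1 ≤ L / q := by omega
    exact_mod_cast this
  have hL'X : ((L / q : ℕ) : ℝ) ≤ (X : ℝ) ^ δ := by
    have h1 : ((L / q : ℕ) : ℝ) ≤ L := by exact_mod_cast Nat.div_le_self L q
    exact h1.trans (hLX.trans (Real.rpow_le_rpow_of_exponent_le hX1 (min_le_left _ _)))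
  have hLhalf : (L : ℝ) ≤ (X : ℝ) ^ (1 / 2 : ℝ) :=
    hLX.trans (Real.rpow_le_rpow_of_exponent_le hX1 (min_le_right _ _))
  obtain ⟨m1, hm1⟩ : ∃ m1 : ℝ, m1 = min 1 ((L : ℝ) / Real.log X) := ⟨_, rfl⟩
  obtain ⟨m2, hm2⟩ : ∃ m2 : ℝ, m2 = min 1 (((L / q : ℕ) : ℝ) / Real.log X) := ⟨_, rfl⟩
  have hm2a : 1 / Real.log X ≤ m2 := by
    rw [hm2, le_min_iff]
    constructor
    · rw [div_le_one hlog0]
      exact hlog
    · gcongr
  have hm2b : m2 ≤ 1 := by
    rw [hm2]
    exact min_le_left _ _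
  have hm20 : 0 < m2 := lt_of_lt_of_le (by positivity) hm2a
  have hm1b : m1 ≤ 2 * q * m2 := by
    rw [hm1, hm2, mul_min_of_nonneg _ _ (by positivity : (0 : ℝ) ≤ 2 * q)]
    apply min_le_min
    · linarith
    · rw [← mul_div_assoc]
      gcongr
  have hm10 : 0 ≤ m1 := by
    rw [hm1]
    exact le_min zero_le_one (by positivity)
  obtain ⟨Y, hY⟩ : ∃ Y : ℝ, Y = X / Real.log X ^ (k + 1) := ⟨_, rfl⟩
  have hY0 : 0 < Y := by
    rw [hY]
    positivity
  -- the error term
  have herr : (L : ℝ) ≤ c / (2 * r) * m2 ^ K * Y := by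
    refine hLhalf.trans (hbig.trans ?_)
    rw [mul_assoc]
    apply mul_le_mul_of_nonneg_left _ (by positivity)
    calc (X : ℝ) / Real.log X ^ (K + k + 1) = (1 / Real.log X) ^ K * Y := by
          rw [hY, div_pow, one_pow, add_assoc, pow_add]
          field_simp
      _ ≤ m2 ^ K * Y := by gcongr
  have hmain : c' * m1 ^ K * Y ≤ c / (2 * r) * m2 ^ K * Y := by
    apply mul_le_mul_of_nonneg_right _ hY0.le
    calc c' * m1 ^ K ≤ c' * (2 * q * m2) ^ K := by gcongr
      _ = c / (2 * r) * m2 ^ K := by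
          rw [hc', mul_pow (2 * (q : ℝ))]
          field_simp
  constructor
  · intro χ
    obtain ⟨S, hS, hSc, hS2⟩ := (hcl X (L / q) a1 (by omega) hL'X (Icc 1 (L / q)) (Subset.refl _) (by
      rw [Nat.card_Icc, Nat.add_sub_cancel]
      nlinarith)).1 χ
    rw [Nat.card_Icc, Nat.add_sub_cancel] at hSc
    unfold AlmostAll at hS2
    obtain ⟨θ, h1, h2⟩ := transfer k q D L1 hq d ε κ γ e hκ he3 hcor L
      ((Nat.mul_le_mul_left q (by omega)).trans hL) S hS (by
        refine le_trans ?_ hSc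
        apply mul_le_mul_of_nonneg_right _ (by positivity)
        have h3 : d ≤ 13 / (100 * r) := by
          rw [hd]
          exact min_le_left _ _
        have h4 : (13 : ℝ) / (50 * r) = 2 * (13 / (100 * r)) := by ring
        rw [h4]
        linarith) _ hS2
      (fun a => ∃ i : Fin r, c' * m1 ^ K * Y ≤ count X {p : ℕ | p.Prime ∧ χ p = i} a) (by
        intro t ht b _ hG
        push Not at hG
        have ht1 : t ≤ L / q := (mem_Icc.1 (hS ht)).2
        have ht2 : q * t ≤ L := (Nat.mul_le_mul_left q ht1).trans hLq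
        have h3 : (countMono X q χ (Fin.cons t fun i => t + b i) : ℝ) ≤
            ∑ i : Fin r, ((count X {p : ℕ | p.Prime ∧ χ p = i} (fun i => q * b i) : ℝ) + L) := by
          have h4 := (countMono_le X q χ (Fin.cons t fun i => t + b i)).trans
            (sum_le_sum fun i _ => countIn_le X q L {p : ℕ | p.Prime ∧ χ p = i} t b ht2)
          exact_mod_cast h4
        refine lt_of_le_of_lt h3 ?_
        have hne : (univ : Finset (Fin r)).Nonempty := ⟨⟨0, hr⟩, mem_univ _⟩
        calc ∑ i : Fin r, ((count X {p : ℕ | p.Prime ∧ χ p = i} (fun i => q * b i) : ℝ) + L)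
            < ∑ _i : Fin r, (c / r * m2 ^ K * Y) := by
              apply sum_lt_sum_of_nonempty hne
              intro i _
              have h5 := hG i
              have h6 : c / r * m2 ^ K * Y = c / (2 * r) * m2 ^ K * Y + c / (2 * r) * m2 ^ K * Y := by
                field_simp
                ring
              rw [h6]
              exact add_lt_add_of_lt_of_le (h5.trans_le hmain) herr
          _ = c * m2 ^ K * (X / Real.log X ^ (k + 1)) := by
              rw [sum_const, card_univ, Fintype.card_fin, nsmul_eq_mul, hY]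
              field_simp
          _ = _ := by rw [hm2])
    rw [← hm1, ← hY]
    exact ⟨θ, h1, h2⟩
  · intro hCL A hA hAc
    obtain ⟨S, hS, hSc, hS2⟩ := (hcl X (L / q) a1 (by omega) hL'X (Icc 1 (L / q)) (Subset.refl _) (by
      rw [Nat.card_Icc, Nat.add_sub_cancel]
      nlinarith)).2 (by
        have h5 : 2 * q * (C * Real.log X) ≤ 2 * q * ((L / q : ℕ) : ℝ) := by linarith
        exact le_of_mul_le_mul_left h5 (by positivity)) A hA hAc
    rw [Nat.card_Icc, Nat.add_sub_cancel] at hSc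
    unfold AlmostAll at hS2
    obtain ⟨θ, h1, h2⟩ := transfer k q D L1 hq d ε κ γ e hκ he3 hcor L
      ((Nat.mul_le_mul_left q (by omega)).trans hL) S hS (by
        refine le_trans ?_ hSc
        apply mul_le_mul_of_nonneg_right _ (by positivity)
        have h3 : d ≤ 13 * α / 100 := by
          rw [hd]
          exact min_le_right _ _
        linarith) _ hS2
      (fun a => c' * Y ≤ count X A a) (by
        intro t ht b _ hG
        push Not at hG
        have ht1 : t ≤ L / q := (mem_Icc.1 (hS ht)).2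
        have ht2 : q * t ≤ L := (Nat.mul_le_mul_left q ht1).trans hLq
        have h3 : (countIn X q (A : Set ℕ) (Fin.cons t fun i => t + b i) : ℝ) ≤
            (count X (A : Set ℕ) (fun i => q * b i) : ℝ) + L := by
          exact_mod_cast countIn_le X q L (A : Set ℕ) t b ht2
        refine lt_of_le_of_lt h3 ?_
        rw [← hY]
        have h4 : c' ≤ c / 2 := by
          rw [hc']
          apply div_le_div_of_nonneg_left hc.le (by norm_num)
          have h5 : (1 : ℝ) ≤ (2 * q) ^ K := one_le_pow₀ (by linarith)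
          nlinarith
        have h5 : m2 ^ K ≤ 1 := pow_le_one₀ hm20.le hm2b
        have h6 : c / (2 * r) ≤ c / 2 := by
          apply div_le_div_of_nonneg_left hc.le (by norm_num)
          linarith
        have h7 : c / (2 * r) * m2 ^ K * Y ≤ c / 2 * Y := by
          apply mul_le_mul_of_nonneg_right _ hY0.le
          have h8 : 0 < c / (2 * r) := by positivity
          have h9 : 0 < m2 ^ K := by positivity
          nlinarith
        calc (count X (A : Set ℕ) (fun i => q * b i) : ℝ) + L < c' * Y + c / 2 * Y :=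
              add_lt_add_of_lt_of_le hG (herr.trans h7)
          _ ≤ c / 2 * Y + c / 2 * Y := by gcongr
          _ = c * Y := by ring)
    rw [← hY]
    exact ⟨θ, h1, h2⟩

end Pool.Agent.H99.HP
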