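import Pool.Agent.H99.HP.Asm
import Pool.Agent.H96.BH.Cor
import Pool.Agent.H61.HB.FinG

/-!
# Theorem H+ with consecutive primes (MP_8923e7_nt): union of `H99/HP/Asm` (all scales up to `X^δ`) and `H61/HB/FinG` (consecutive primes at
the scales `L ≤ λ log X`)
-/

namespace Pool.Agent.H99.HP

open Finset Filter Pool.Agent.H61.HB

theorem memf {β : Type} {p : β → Prop} {i : DecidablePred p} {s : Finset β} {a : β} :
    a ∈ @Finset.filter β p i s ↔ a ∈ s ∧ p a := mem_filter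

/-- `N + a_0, …, N + a_k` (`a_0 = 0`) are primes of colour `i`, and if `cons` holds, there is no prime `q` of colour `i` with
`N + a_t < q < N + a_(t+1)` for `t ∈ G` -/
def Pat {k r : ℕ} (χ : ℕ → Fin r) (i : Fin r) (cons : Prop) (G : Finset (Fin k)) (a : Fin k → ℕ) (N : ℕ) : Prop :=
  (∀ j, (N + (Fin.cons 0 a : Fin (k + 1) → ℕ) j).Prime ∧ χ (N + (Fin.cons 0 a : Fin (k + 1) → ℕ) j) = i) ∧
  (cons → ∀ t ∈ G, ∀ q : ℕ, N + (Fin.cons 0 a : Fin (k + 1) → ℕ) t.castSucc < q →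
    q < N + (Fin.cons 0 a : Fin (k + 1) → ℕ) t.succ → ¬ (q.Prime ∧ χ q = i))

open Classical in
/-- the number of the `N ≤ X` with `Pat` -/
noncomputable def cntP {k r : ℕ} (X : ℕ) (χ : ℕ → Fin r) (i : Fin r) (cons : Prop) (G : Finset (Fin k))
    (a : Fin k → ℕ) : ℕ :=
  ((Icc 1 X).filter fun N => Pat χ i cons G a N).card

theorem pat_of_pg {k r : ℕ} (χ : ℕ → Fin r) (i : Fin r) (cons cons' : Prop) (hc : cons → cons') (G : Finset (Fin k))
    (a : Fin k → ℕ) (N : ℕ) (h : Pg χ cons' G i (Fin.cons 0 a) N) : Pat χ i cons G a N := by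
  refine ⟨h.1, fun h1 t ht q hq1 hq2 hq3 => ?_⟩
  have h2 := h.2 (hc h1) t ht (q - N) (by omega) (by omega)
  have h3 : N + (q - N) = q := by omega
  rw [h3] at h2
  exact h2 hq3

theorem cntP_ge {k r : ℕ} (X : ℕ) (χ : ℕ → Fin r) (i : Fin r) (cons cons' : Prop) (hc : cons → cons') (G : Finset (Fin k))
    (a : Fin k → ℕ) : cntG χ cons' G i a X ≤ cntP X χ i cons G a := by
  classical
  unfold cntG cntP
  apply card_le_card
  intro N hN
  rw [mem_filter] at hN ⊢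
  exact ⟨hN.1, pat_of_pg χ i cons cons' hc G a N hN.2⟩

theorem cntP_ge' {k r : ℕ} (X : ℕ) (χ : ℕ → Fin r) (i : Fin r) (cons : Prop) (hc : ¬ cons) (G : Finset (Fin k))
    (a : Fin k → ℕ) : count X {p : ℕ | p.Prime ∧ χ p = i} a ≤ cntP X χ i cons G a := by
  classical
  unfold count cntP
  apply card_le_card
  intro N hN
  replace hN := memf.1 hN
  refine memf.2 ⟨hN.1, fun j => ?_, fun h => absurd h hc⟩
  refine Fin.cases ?_ (fun j => ?_) j
  · exact hN.2.1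
  · exact hN.2.2 j

theorem bohr_eq_BS (L D : ℕ) (θ : Fin D → ℝ) : bohr L D θ = BS D θ L := by
  classical
  unfold bohr BS
  ext h
  rw [mem_filter, mem_filter]
  constructor
  · rintro ⟨h1, h2⟩
    refine ⟨h1, fun i => ⟨round (θ i * h), ?_⟩⟩
    rw [mul_comm]
    exact h2 i
  · rintro ⟨h1, h2⟩
    refine ⟨h1, fun i => ?_⟩
    obtain ⟨z, hz⟩ := h2 i
    rw [mul_comm] at hz
    exact (round_le (θ i * h) z).trans hz

/-- more frequencies -/
theorem bohr_pad (L D D' : ℕ) (hD : D ≤ D') (θ : Fin D → ℝ) : ∃ θ' : Fin D' → ℝ, bohr L D' θ' = bohr L D θ := by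
  refine ⟨fun i => if h : (i : ℕ) < D then θ ⟨i, h⟩ else 0, ?_⟩
  unfold bohr
  ext n
  rw [mem_filter, mem_filter]
  refine and_congr_right fun _ => ⟨fun h i => ?_, fun h i => ?_⟩
  · have h1 := h ⟨i, lt_of_lt_of_le i.2 hD⟩
    simp only [i.2, dif_pos] at h1
    exact h1
  · by_cases h1 : (i : ℕ) < D
    · simp only [h1, dif_pos]
      exact h ⟨i, h1⟩
    · simp only [h1, dif_neg, not_false_eq_true, zero_mul, round_zero, Int.cast_zero, sub_zero, abs_zero]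
      norm_num

open Classical in
/-- **Theorem H+ with consecutive primes.** -/
theorem mainP (k r : ℕ) (α ε : ℝ) (hk : 1 ≤ k) (hr : 1 ≤ r) (hα : 0 < α) (hα1 : α ≤ 1) (hε : 0 < ε) (hε1 : ε ≤ 1) :
    ∃ (D K : ℕ) (κ c C lam δ : ℝ) (L₀ X₀ : ℕ), 0 < κ ∧ 0 < c ∧ 0 < C ∧ 0 < lam ∧ 0 < δ ∧
      ∀ X L : ℕ, X₀ ≤ X → L₀ ≤ L → (L : ℝ) ≤ (X : ℝ) ^ δ →
        (∀ χ : ℕ → Fin r, ∃ θ : Fin D → ℝ, κ * L ≤ (bohr L D θ).card ∧
          Most (k := k) ε (bohr L D θ) fun a => StrictMono a →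
            ∀ G : Finset (Fin k), (∀ t ∈ G, ∀ u ∈ G, (t : ℕ) + 1 ≠ u) → ∃ i : Fin r,
            c * (min 1 ((L : ℝ) / Real.log X)) ^ K * (X / Real.log X ^ (k + 1)) ≤
              cntP X χ i ((L : ℝ) ≤ lam * Real.log X) G a) ∧
        (C * Real.log X ≤ L → ∀ A : Finset ℕ, (∀ p ∈ A, p.Prime ∧ p ≤ X) → α * X / Real.log X ≤ A.card →
          ∃ θ : Fin D → ℝ, κ * L ≤ (bohr L D θ).card ∧
          Most (k := k) ε (bohr L D θ) fun a => c * (X / Real.log X ^ (k + 1)) ≤ count X (A : Set ℕ) a) := by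
  obtain ⟨D1, K1, κ1, c1, C1, δ1, L1, X1, hκ1, hc1, hC1, hδ1, h1⟩ :=
    main Pool.Agent.H96.BH.cor k r α ε hr hα hα1 hε hε1
  obtain ⟨D2, K2, L2, κ2, hκ2, h2⟩ := thmG k r hk hr ε hε
  obtain ⟨c2, lam, X2, hc2, hlam, h2⟩ := h2 2 (by norm_num)
  -- logarithms
  obtain ⟨X3, hX3⟩ : ∃ X3 : ℕ, ∀ X : ℕ, X3 ≤ X → 1 ≤ Real.log X ∧ lam ≤ Real.log X := by
    have h3 := (Real.tendsto_log_atTop.comp (tendsto_natCast_atTop_atTop (R := ℝ))).eventually_ge_atTop (max 1 lam)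
    obtain ⟨X3, hX3⟩ := eventually_atTop.1 h3
    exact ⟨X3, fun X hX => max_le_iff.1 (hX3 X hX)⟩
  refine ⟨max D1 D2, max K1 K2, min κ1 κ2, min c1 c2, C1, lam, δ1, max L1 L2, max X1 (max X2 X3), by positivity,
    by positivity, hC1, hlam, hδ1, fun X L hX hL hLX => ?_⟩
  have a1 : X1 ≤ X := (le_max_left _ _).trans hX
  have a2 : X2 ≤ X := ((le_max_left _ _).trans (le_max_right _ _)).trans hX
  have a3 : X3 ≤ X := ((le_max_right _ _).trans (le_max_right _ _)).trans hX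
  have b1 : L1 ≤ L := (le_max_left _ _).trans hL
  have b2 : L2 ≤ L := (le_max_right _ _).trans hL
  obtain ⟨hlog1, hlog2⟩ := hX3 X a3
  have hlog0 : 0 < Real.log X := by linarith
  obtain ⟨m, hm⟩ : ∃ m : ℝ, m = min 1 ((L : ℝ) / Real.log X) := ⟨_, rfl⟩
  have hm0 : 0 ≤ m := by
    rw [hm]
    exact le_min zero_le_one (by positivity)
  have hm1 : m ≤ 1 := by
    rw [hm]
    exact min_le_left _ _
  obtain ⟨Y, hY⟩ : ∃ Y : ℝ, Y = X / Real.log X ^ (k + 1) := ⟨_, rfl⟩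
  have hY0 : 0 ≤ Y := by
    rw [hY]
    positivity
  have t1 : min c1 c2 * m ^ max K1 K2 * Y ≤ c1 * m ^ K1 * Y := by
    apply mul_le_mul_of_nonneg_right _ hY0
    exact mul_le_mul (min_le_left _ _) (pow_le_pow_of_le_one hm0 hm1 (le_max_left _ _)) (by positivity) hc1.le
  have t2 : min c1 c2 * m ^ max K1 K2 * Y ≤ c2 * m ^ K2 * Y := by
    apply mul_le_mul_of_nonneg_right _ hY0
    exact mul_le_mul (min_le_right _ _) (pow_le_pow_of_le_one hm0 hm1 (le_max_right _ _)) (by positivity) hc2.le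
  have t3 : min c1 c2 * Y ≤ c1 * Y := mul_le_mul_of_nonneg_right (min_le_left _ _) hY0
  rw [← hm, ← hY]
  obtain ⟨p1, p2⟩ := h1 X L a1 b1 hLX
  constructor
  · intro χ
    by_cases hcase : (L : ℝ) ≤ lam * Real.log X
    · -- the small scales
      have hLA : (L : ℝ) ≤ Real.log X ^ (2 : ℝ) := by
        rw [Real.rpow_two, pow_two]
        exact hcase.trans (mul_le_mul_of_nonneg_right hlog2 hlog0.le)
      obtain ⟨θ, hθ1, hθ2⟩ := h2 X a2 L b2 hLA χ
      obtain ⟨θ', hθ'⟩ := bohr_pad L D2 (max D1 D2) (le_max_right _ _) θ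
      refine ⟨θ', ?_, ?_⟩
      · rw [hθ', bohr_eq_BS]
        exact (mul_le_mul_of_nonneg_right (min_le_right _ _) (Nat.cast_nonneg L)).trans hθ1
      · rw [hθ', bohr_eq_BS]
        unfold Most
        refine le_trans (Nat.cast_le.2 (card_le_card ?_)) hθ2
        intro a ha
        replace ha := memf.1 ha
        obtain ⟨ha1, ha2⟩ := ha
        push Not at ha2
        obtain ⟨ha3, G, hG, ha4⟩ := ha2
        refine memf.2 ⟨ha1, ha3, ⟨G, hG⟩, fun i => ?_⟩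
        have h3 := ha4 i
        have h4 : (cntG χ ((L : ℝ) ≤ lam * Real.log X) G i a X : ℝ) ≤
            cntP X χ i ((L : ℝ) ≤ lam * Real.log X) G a := by
          exact_mod_cast cntP_ge X χ i _ _ id G a
        rw [← hm, ← hY]
        exact lt_of_le_of_lt h4 (lt_of_lt_of_le h3 t2)
    · -- the large scales
      obtain ⟨θ, hθ1, hθ2⟩ := p1 χ
      obtain ⟨θ', hθ'⟩ := bohr_pad L D1 (max D1 D2) (le_max_left _ _) θ
      refine ⟨θ', ?_, ?_⟩
      · rw [hθ']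
        exact (mul_le_mul_of_nonneg_right (min_le_left _ _) (Nat.cast_nonneg L)).trans hθ1
      · rw [hθ']
        unfold Most at hθ2 ⊢
        refine le_trans (Nat.cast_le.2 (card_le_card ?_)) hθ2
        intro a ha
        replace ha := memf.1 ha
        obtain ⟨ha1, ha2⟩ := ha
        refine memf.2 ⟨ha1, fun ha3 => ha2 fun _ G _ => ?_⟩
        obtain ⟨i, hi⟩ := ha3
        rw [← hm, ← hY] at hi
        refine ⟨i, t1.trans (hi.trans ?_)⟩
        exact_mod_cast cntP_ge' X χ i _ hcase G a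
  · intro hCL A hA hAc
    obtain ⟨θ, hθ1, hθ2⟩ := p2 hCL A hA hAc
    obtain ⟨θ', hθ'⟩ := bohr_pad L D1 (max D1 D2) (le_max_left _ _) θ
    refine ⟨θ', ?_, ?_⟩
    · rw [hθ']
      exact (mul_le_mul_of_nonneg_right (min_le_left _ _) (Nat.cast_nonneg L)).trans hθ1
    · rw [hθ']
      unfold Most at hθ2 ⊢
      refine le_trans (Nat.cast_le.2 (card_le_card ?_)) hθ2
      intro a ha
      replace ha := memf.1 ha
      refine memf.2 ⟨ha.1, fun h => ha.2 (t3.trans ?_)⟩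
      rw [← hY] at h
      exact h

end Pool.Agent.H99.HP
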