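import Pool.Agent.H99.HP.Df

/-!
Dilation of Bohr sets: `Q · {1 ≤ h ≤ L/Q : ‖θ_i h‖ ≤ 1/4}` is a Bohr set of rank `D + Q` in `[1, L]`, and the transfer of `Cor`
from `S ⊆ [1, L/Q]` to Bohr sets in `[1, L]`.
-/

namespace Pool.Agent.H99.HP

open Finset

private theorem nrm_two (x : ℝ) (hx : |x - round x| ≤ 1 / 4) : |2 * x - round (2 * x)| = 2 * |x - round x| := by
  have e1 : |2 * x - ((2 * round x : ℤ) : ℝ)| = 2 * |x - round x| := by
    push_cast
    rw [← mul_sub, abs_mul, abs_two]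
  apply le_antisymm
  · rw [← e1]
    exact round_le (2 * x) (2 * round x)
  · by_cases h : round (2 * x) = 2 * round x
    · rw [h, e1]
    · have h1 : (1 : ℝ) ≤ |((round (2 * x) - 2 * round x : ℤ) : ℝ)| := by
        rw [← Int.cast_abs]
        exact_mod_cast Int.one_le_abs (sub_ne_zero.2 h)
      have h2 : ((round (2 * x) - 2 * round x : ℤ) : ℝ) = (2 * x - ((2 * round x : ℤ) : ℝ)) - (2 * x - round (2 * x)) := by
        push_cast
        ring
      rw [h2] at h1
      have h3 := abs_sub (2 * x - ((2 * round x : ℤ) : ℝ)) (2 * x - round (2 * x))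
      rw [e1] at h3
      linarith

private theorem nrm_pow (x : ℝ) (J : ℕ) (hx : ∀ j < J, |2 ^ j * x - round (2 ^ j * x)| ≤ 1 / 4) :
    |2 ^ J * x - round (2 ^ J * x)| = 2 ^ J * |x - round x| := by
  induction J with
  | zero => simp
  | succ J ih =>
    have h1 := ih fun j hj => hx j (by omega)
    have h2 := nrm_two (2 ^ J * x) (hx J (by omega))
    rw [pow_succ, mul_comm ((2 : ℝ) ^ J) 2, mul_assoc, h2, h1]
    ring

/-- the frequencies `2^j / Q`, `j < Q`, force `Q ∣ h` -/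
private theorem dvd_of_nrm (Q h : ℕ) (hQ : 0 < Q) (H : ∀ j < Q, |(2 ^ j / Q : ℝ) * h - round ((2 ^ j / Q : ℝ) * h)| ≤ 1 / 4) :
    Q ∣ h := by
  have hQ0 : (0 : ℝ) < Q := by exact_mod_cast hQ
  have h1 := nrm_pow ((h : ℝ) / Q) Q fun j hj => by
    have := H j hj
    rwa [div_mul_eq_mul_div, mul_div_assoc] at this
  have h2 : |2 ^ Q * ((h : ℝ) / Q) - round (2 ^ Q * ((h : ℝ) / Q))| ≤ 1 / 2 := abs_sub_round _
  rw [h1] at h2
  have h3 : (Q : ℝ) < 2 ^ Q := by exact_mod_cast Nat.lt_two_pow_self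
  have h4 : |(h : ℝ) / Q - round ((h : ℝ) / Q)| < 1 / Q := by
    rw [lt_div_iff₀ hQ0]
    have h5 : 0 ≤ |(h : ℝ) / Q - round ((h : ℝ) / Q)| := abs_nonneg _
    by_contra h6
    push Not at h6
    nlinarith
  have h5 : |(h : ℝ) - Q * round ((h : ℝ) / Q)| < 1 := by
    have h6 : (h : ℝ) - Q * round ((h : ℝ) / Q) = Q * ((h : ℝ) / Q - round ((h : ℝ) / Q)) := by
      field_simp
    rw [h6, abs_mul, abs_of_pos hQ0]
    rw [lt_div_iff₀ hQ0] at h4
    linarith
  have h6 : ((h : ℤ) - Q * round ((h : ℝ) / Q)) = 0 := by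
    have h7 : |(((h : ℤ) - Q * round ((h : ℝ) / Q) : ℤ) : ℝ)| < 1 := by
      push_cast
      exact h5
    rw [← Int.cast_abs] at h7
    have h8 : |(h : ℤ) - Q * round ((h : ℝ) / Q)| < 1 := by exact_mod_cast h7
    exact abs_eq_zero.1 (by
      have := abs_nonneg ((h : ℤ) - Q * round ((h : ℝ) / Q))
      omega)
  have h7 : (Q : ℤ) ∣ (h : ℤ) := ⟨round ((h : ℝ) / Q), by omega⟩
  exact_mod_cast h7

/-- the frequencies of the dilated Bohr set -/
noncomputable def dil {D : ℕ} (Q : ℕ) (θ : Fin D → ℝ) : Fin (D + Q) → ℝ :=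
  Fin.append (fun i => θ i / Q) fun j : Fin Q => 2 ^ (j : ℕ) / (Q : ℝ)

theorem bohr_dil (L D Q : ℕ) (hQ : 0 < Q) (θ : Fin D → ℝ) :
    bohr L (D + Q) (dil Q θ) = (bohr (L / Q) D θ).image fun h => Q * h := by
  have hQ0 : (0 : ℝ) < Q := by exact_mod_cast hQ
  ext h
  unfold bohr
  simp only [mem_image, mem_filter, mem_Icc]
  constructor
  · rintro ⟨⟨h1, h2⟩, h3⟩
    obtain ⟨g, rfl⟩ : Q ∣ h := dvd_of_nrm Q h hQ fun j hj => by
      have := h3 (Fin.natAdd D ⟨j, hj⟩)
      unfold dil at this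
      rwa [Fin.append_right] at this
    refine ⟨g, ⟨⟨?_, ?_⟩, fun i => ?_⟩, rfl⟩
    · exact Nat.pos_of_ne_zero fun h0 => by
        rw [h0] at h1
        omega
    · rw [Nat.le_div_iff_mul_le hQ, mul_comm]
      exact h2
    · have := h3 (Fin.castAdd Q i)
      unfold dil at this
      rw [Fin.append_left] at this
      have h4 : θ i / (Q : ℝ) * ((Q * g : ℕ) : ℝ) = θ i * g := by
        push_cast
        field_simp
      rwa [h4] at this
  · rintro ⟨g, ⟨⟨h1, h2⟩, h3⟩, rfl⟩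
    refine ⟨⟨Nat.mul_pos hQ h1, ?_⟩, fun i => ?_⟩
    · rw [Nat.le_div_iff_mul_le hQ, mul_comm] at h2
      exact h2
    · refine Fin.addCases (fun i => ?_) (fun j => ?_) i
      · unfold dil
        rw [Fin.append_left]
        have h4 : θ i / (Q : ℝ) * ((Q * g : ℕ) : ℝ) = θ i * g := by
          push_cast
          field_simp
        rw [h4]
        exact h3 i
      · unfold dil
        rw [Fin.append_right]
        have h4 : (2 : ℝ) ^ (j : ℕ) / (Q : ℝ) * ((Q * g : ℕ) : ℝ) = ((2 ^ (j : ℕ) * g : ℕ) : ℝ) := by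
          push_cast
          field_simp
        rw [h4, round_natCast, Int.cast_natCast, sub_self, abs_zero]
        norm_num

open Classical in
/-- `P a` for all but at most `ε |B|^k` of the `a ∈ B^k` -/
def Most {k : ℕ} (ε : ℝ) (B : Finset ℕ) (P : (Fin k → ℕ) → Prop) : Prop :=
  (((Fintype.piFinset fun _ : Fin k => B).filter fun a => ¬ P a).card : ℝ) ≤ ε * (B.card : ℝ) ^ k

open Classical in
/-- the transfer -/
theorem transfer (k Q D L₀ : ℕ) (hQ : 0 < Q) (d ε κ γ e : ℝ) (hκ : 0 < κ) (he : e < γ)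
    (H : ∀ L : ℕ, L₀ ≤ L → ∀ S : Finset ℕ, S ⊆ Icc 1 L → d * L ≤ S.card → ∃ θ : Fin D → ℝ,
      κ * L ≤ (bohr L D θ).card ∧
      ∀ CC : Finset (Fin k → ℕ), CC ⊆ Fintype.piFinset (fun _ : Fin k => bohr L D θ) →
        ε * ((bohr L D θ).card : ℝ) ^ k ≤ CC.card → γ * (L : ℝ) ^ (k + 1) ≤ (cnf S CC).card)
    (L : ℕ) (hL : Q * (L₀ + 1) ≤ L) (S : Finset ℕ) (hS : S ⊆ Icc 1 (L / Q)) (hSc : d * (L / Q : ℕ) ≤ S.card)
    (bad : (Fin (k + 1) → ℕ) → Prop)
    (hbad : (((Fintype.piFinset fun _ : Fin (k + 1) => S).filter bad).card : ℝ) ≤ e * ((L / Q : ℕ) : ℝ) ^ (k + 1))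
    (G : (Fin k → ℕ) → Prop)
    (hG : ∀ t ∈ S, ∀ c : Fin k → ℕ, (∀ i, t + c i ∈ S) → ¬ G (fun i => Q * c i) →
      bad (Fin.cons t fun i => t + c i)) :
    ∃ θ : Fin (D + Q) → ℝ, κ / (2 * Q) * L ≤ (bohr L (D + Q) θ).card ∧ Most ε (bohr L (D + Q) θ) G := by
  have hQ0 : (0 : ℝ) < Q := by exact_mod_cast hQ
  have hL1 : L₀ + 1 ≤ L / Q := by
    rw [Nat.le_div_iff_mul_le hQ, mul_comm]
    exact hL
  obtain ⟨θ, h1, h2⟩ := H (L / Q) (by omega) S hS hSc
  have hcard : (bohr L (D + Q) (dil Q θ)).card = (bohr (L / Q) D θ).card := by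
    rw [bohr_dil L D Q hQ θ, card_image_of_injective]
    intro a b hab
    exact Nat.eq_of_mul_eq_mul_left hQ hab
  refine ⟨dil Q θ, ?_, ?_⟩
  · rw [hcard]
    refine le_trans ?_ h1
    have h3 : (L : ℝ) ≤ 2 * Q * ((L / Q : ℕ) : ℝ) := by
      have h4 : L ≤ 2 * Q * (L / Q) := by
        have h5 := Nat.div_add_mod L Q
        have h6 := Nat.mod_lt L hQ
        have h7 : Q * 1 ≤ Q * (L / Q) := Nat.mul_le_mul_left _ (by omega)
        nlinarith
      exact_mod_cast h4
    calc κ / (2 * Q) * L ≤ κ / (2 * Q) * (2 * Q * ((L / Q : ℕ) : ℝ)) :=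
          mul_le_mul_of_nonneg_left h3 (by positivity)
      _ = κ * ((L / Q : ℕ) : ℝ) := by field_simp
  · unfold Most
    rw [hcard]
    obtain ⟨CC, hCC⟩ : ∃ CC : Finset (Fin k → ℕ), CC = (Fintype.piFinset fun _ : Fin k => bohr (L / Q) D θ).filter
      fun c => ¬ G fun i => Q * c i := ⟨_, rfl⟩
    have h3 : ((Fintype.piFinset fun _ : Fin k => bohr L (D + Q) (dil Q θ)).filter fun a => ¬ G a).card ≤ CC.card := by
      have h4 : ((Fintype.piFinset fun _ : Fin k => bohr L (D + Q) (dil Q θ)).filter fun a => ¬ G a) ⊆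
          CC.image fun c i => Q * c i := by
        intro a ha
        rw [mem_filter, Fintype.mem_piFinset] at ha
        have h5 : ∀ i, ∃ g, g ∈ bohr (L / Q) D θ ∧ Q * g = a i := fun i => by
          have := ha.1 i
          rw [bohr_dil L D Q hQ θ, mem_image] at this
          exact this
        choose g hg1 hg2 using h5
        rw [mem_image]
        refine ⟨g, ?_, funext hg2⟩
        rw [hCC, mem_filter, Fintype.mem_piFinset]
        exact ⟨hg1, by rw [funext hg2]; exact ha.2⟩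
      exact (card_le_card h4).trans card_image_le
    refine le_trans (Nat.cast_le.2 h3) ?_
    by_contra h4
    push Not at h4
    have h5 := h2 CC (by rw [hCC]; exact filter_subset _ _) h4.le
    have h6 : (cnf S CC).card ≤ ((Fintype.piFinset fun _ : Fin (k + 1) => S).filter bad).card := by
      apply card_le_card_of_injOn (fun z => (Fin.cons z.1 fun i => z.1 + z.2 i : Fin (k + 1) → ℕ))
      · intro z hz
        unfold cnf at hz
        rw [mem_coe, mem_filter, mem_product] at hz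
        obtain ⟨⟨h7, h8⟩, h9⟩ := hz
        rw [mem_coe, mem_filter, Fintype.mem_piFinset]
        rw [hCC, mem_filter] at h8
        refine ⟨fun i => ?_, hG z.1 h7 z.2 h9 h8.2⟩
        refine Fin.cases ?_ (fun i => ?_) i
        · exact h7
        · show (Fin.cons z.1 fun i => z.1 + z.2 i : Fin (k + 1) → ℕ) i.succ ∈ S
          rw [Fin.cons_succ]
          exact h9 i
      · intro z _ w _ hzw
        have h7 := congrFun hzw 0
        simp only [Fin.cons_zero] at h7
        refine Prod.ext h7 (funext fun i => ?_)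
        have h8 := congrFun hzw i.succ
        simp only [Fin.cons_succ] at h8
        omega
    have h7 : ((cnf S CC).card : ℝ) ≤ e * ((L / Q : ℕ) : ℝ) ^ (k + 1) := le_trans (by exact_mod_cast h6) hbad
    have h8 : (0 : ℝ) < ((L / Q : ℕ) : ℝ) ^ (k + 1) := by
      apply pow_pos
      have : 0 < L / Q := by omega
      exact_mod_cast this
    nlinarith

end Pool.Agent.H99.HP
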